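import Pool.Agent.Helper38.NR.Phi

/-!
# NR, blocks js_range, card_bd: the scales
-/

set_option autoImplicit false
open Pool.Agent.Helper24.NR

namespace Pool.Agent.Helper38.NR

theorem mem_iff {L : ℝ} (hL : 0 ≤ L) (j : ℕ) : j ∈ Js L ↔ L ≤ (2:ℝ) ^ (6 * j) ∧ (2:ℝ) ^ (3 * j) ≤ L := by
  unfold Js
  rw [Finset.mem_filter, Finset.mem_range, Nat.lt_succ_iff, Nat.le_floor_iff hL]
  refine ⟨fun h => h.2, fun h => ⟨le_trans ?_ h.2, h⟩⟩
  have h4 : j < 2 ^ (3 * j) := lt_of_lt_of_le Nat.lt_two_pow_self (Nat.pow_le_pow_right (by norm_num) (by omega))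
  exact_mod_cast h4.le

/-- the scales are an interval -/
theorem js_icc {L : ℝ} (hL : 64 ≤ L) : ∃ a b : ℕ, a ≤ b ∧ Js L = Finset.Icc a b := by
  have h := Js_ne hL
  refine ⟨(Js L).min' h, (Js L).max' h, Finset.min'_le_max' _ h, ?_⟩
  ext j
  rw [Finset.mem_Icc]
  constructor
  · intro hj
    exact ⟨Finset.min'_le _ _ hj, Finset.le_max' _ _ hj⟩
  · rintro ⟨h1, h2⟩
    have ha := ((mem_iff (by linarith) _).1 (Finset.min'_mem _ h)).1
    have hb := ((mem_iff (by linarith) _).1 (Finset.max'_mem _ h)).2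
    rw [mem_iff (by linarith)]
    exact ⟨ha.trans (pow_le_pow_right₀ (by norm_num) (by omega)),
      le_trans (pow_le_pow_right₀ (by norm_num) (by omega)) hb⟩

/-- S3: the scales are a range -/
theorem js_range {L : ℝ} (hL : 64 ≤ L) : ∃ a : ℕ, (∀ f : ℕ → ℝ, ∑ j ∈ Js L, f j = ∑ i ∈ Finset.range (Js L).card, f (a + i)) ∧
    L ≤ (2:ℝ) ^ (6 * a) ∧ 1 ≤ (Js L).card ∧ (2:ℝ) ^ (3 * (a + (Js L).card - 1)) ≤ L := by
  obtain ⟨a, b, hab, hJ⟩ := js_icc hL
  have hcard : (Js L).card = b + 1 - a := by rw [hJ, Nat.card_Icc]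
  have ha : a ∈ Js L := by rw [hJ, Finset.mem_Icc]; omega
  have hb : b ∈ Js L := by rw [hJ, Finset.mem_Icc]; omega
  refine ⟨a, fun f => ?_, ((mem_iff (by linarith) _).1 ha).1, by omega, ?_⟩
  · rw [hcard, hJ]
    have e : Finset.Icc a b = Finset.Ico a (b + 1) := by
      ext j
      rw [Finset.mem_Icc, Finset.mem_Ico]
      omega
    rw [e, Finset.sum_Ico_eq_sum_range]
  · have e : a + (Js L).card - 1 = b := by omega
    rw [e]
    exact ((mem_iff (by linarith) _).1 hb).2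

/-- S1 -/
theorem card_bd : ∃ C : ℝ, 1 ≤ C ∧ ∀ L : ℝ, C ≤ L → Real.log L / 6 ≤ ((Js L).card : ℝ) ∧ ((Js L).card : ℝ) ≤ Real.log L := by
  refine ⟨Real.exp 15, Real.one_le_exp (by norm_num), fun L hL => ?_⟩
  have hL0 : 0 < L := lt_of_lt_of_le (Real.exp_pos _) hL
  have hlog : 15 ≤ Real.log L := by rwa [Real.le_log_iff_exp_le hL0]
  have h64 : 64 ≤ L := by
    refine le_trans ?_ hL
    have h1 : (15:ℝ) + 1 ≤ Real.exp 15 := Real.add_one_le_exp 15
    have h2 : Real.exp 15 = Real.exp 5 ^ 3 := by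
      rw [← Real.exp_nat_mul]
      norm_num
    have h3 : (5:ℝ) + 1 ≤ Real.exp 5 := Real.add_one_le_exp 5
    have h4 : (6:ℝ) ^ 3 ≤ Real.exp 5 ^ 3 := pow_le_pow_left₀ (by norm_num) (by linarith) 3
    rw [h2]
    linarith
  obtain ⟨a, b, hab, hJ⟩ := js_icc h64
  have hcard : ((Js L).card : ℝ) = b + 1 - a := by
    rw [hJ, Nat.card_Icc, Nat.cast_sub (by omega)]
    push_cast
    ring
  have hl2a : 0.6931471803 < Real.log 2 := Real.log_two_gt_d9
  have hl2b : Real.log 2 < 0.6931471808 := Real.log_two_lt_d9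
  have ha : a ∈ Js L := by rw [hJ, Finset.mem_Icc]; omega
  have hb : b ∈ Js L := by rw [hJ, Finset.mem_Icc]; omega
  have ha1 := ((mem_iff hL0.le _).1 ha).1
  have hb1 := ((mem_iff hL0.le _).1 hb).2
  have hlp : ∀ k : ℕ, Real.log ((2:ℝ) ^ k) = k * Real.log 2 := fun k => Real.log_pow 2 k
  -- `b`
  have hb2 : 3 * (b:ℝ) * Real.log 2 ≤ Real.log L := by
    have := Real.log_le_log (by positivity) hb1
    rw [hlp] at this
    push_cast at this
    exact this
  have ha2 : Real.log L ≤ 6 * (a:ℝ) * Real.log 2 := by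
    have := Real.log_le_log hL0 ha1
    rw [hlp] at this
    push_cast at this
    exact this
  -- next ones
  have hb3 : Real.log L ≤ 3 * ((b:ℝ) + 1) * Real.log 2 := by
    have h1 : b + 1 ∉ Js L := by rw [hJ, Finset.mem_Icc]; omega
    rw [mem_iff hL0.le, not_and] at h1
    have h2 := h1 (ha1.trans (pow_le_pow_right₀ (by norm_num) (by omega)))
    have h3 := Real.log_le_log hL0 (not_le.1 h2).le
    rw [hlp] at h3
    push_cast at h3
    exact h3
  have ha3 : 6 * ((a:ℝ) - 1) * Real.log 2 ≤ Real.log L := by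
    rcases Nat.eq_zero_or_pos a with h0 | h0
    · rw [h0]
      push_cast
      nlinarith
    · have h1 : a - 1 ∉ Js L := by rw [hJ, Finset.mem_Icc]; omega
      rw [mem_iff hL0.le, not_and'] at h1
      have h2 := h1 (le_trans (pow_le_pow_right₀ (by norm_num) (by omega)) hb1)
      have h3 := Real.log_le_log (by positivity) (not_le.1 h2).le
      rw [hlp] at h3
      push_cast [Nat.cast_sub h0] at h3
      exact h3
  rw [hcard]
  constructor
  · nlinarith
  · nlinarith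

end Pool.Agent.Helper38.NR
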