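import Pool.Agent.Helper24.NR.Defs
import Pool.Agent.Helper54.LG.Ker

/-!
# NR, blocks phi_near, phi_far: the test function
-/

set_option autoImplicit false
open MeasureTheory Set Filter Topology
open Pool.Agent.Helper54.LG (qk)
open Pool.Agent.Helper24.NR

namespace Pool.Agent.Helper38.NR

theorem qk_zero_le (b : ℝ) : qk 0 b ≤ 21 / (1 + b ^ 2) := by
  have h := Pool.Agent.Helper54.LG.qk_bound 0 b
  rw [Real.cosh_zero, mul_one] at h
  exact (le_abs_self _).trans h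

/-- near `0` -/
theorem qk_near (b : ℝ) : 0 ≤ 2 / 3 - qk 0 b ∧ 2 / 3 - qk 0 b ≤ b ^ 2 := by
  have h0 : (2:ℝ) / 3 = 2 * ∫ u in (0:ℝ)..1, (1 - u) ^ 2 := by
    rw [intervalIntegral.integral_comp_sub_left (fun u => u ^ 2) 1]
    norm_num
  have h1 : 2 / 3 - qk 0 b = 2 * ∫ u in (0:ℝ)..1, (1 - u) ^ 2 * (1 - Real.cos (b * u)) := by
    unfold qk
    rw [h0, ← mul_sub, ← intervalIntegral.integral_sub]
    · congr 1
      refine intervalIntegral.integral_congr fun u _ => ?_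
      simp only [zero_mul, Real.cosh_zero, mul_one]
      ring
    · exact (by fun_prop : Continuous fun u : ℝ => (1 - u) ^ 2).intervalIntegrable 0 1
    · exact (by fun_prop : Continuous fun u : ℝ => (1 - u) ^ 2 * Real.cosh (0 * u) * Real.cos (b * u)).intervalIntegrable 0 1
  rw [h1]
  constructor
  · refine mul_nonneg (by norm_num) (intervalIntegral.integral_nonneg zero_le_one fun u _ => ?_)
    exact mul_nonneg (sq_nonneg _) (by linarith [Real.cos_le_one (b * u)])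
  · have h2 : ∫ u in (0:ℝ)..1, (1 - u) ^ 2 * (1 - Real.cos (b * u)) ≤ ∫ _u in (0:ℝ)..1, b ^ 2 / 2 := by
      refine intervalIntegral.integral_mono_on zero_le_one
        ((by fun_prop : Continuous fun u : ℝ => (1 - u) ^ 2 * (1 - Real.cos (b * u))).intervalIntegrable 0 1)
        (continuous_const.intervalIntegrable 0 1) fun u hu => ?_
      have h3 := Real.one_sub_sq_div_two_le_cos (x := b * u)
      have h4 : 1 - Real.cos (b * u) ≤ b ^ 2 / 2 := by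
        have h5 : (b * u) ^ 2 ≤ b ^ 2 := by
          rw [mul_pow]
          have : u ^ 2 ≤ 1 := by nlinarith [hu.1, hu.2]
          nlinarith [sq_nonneg b]
        linarith
      have h6 : (1 - u) ^ 2 ≤ 1 := by nlinarith [hu.1, hu.2]
      have h7 : 0 ≤ 1 - Real.cos (b * u) := by linarith [Real.cos_le_one (b * u)]
      nlinarith [sq_nonneg (1 - u)]
    rw [intervalIntegral.integral_const] at h2
    simp only [sub_zero, one_smul] at h2
    linarith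

/-- the scales -/
theorem Js_ne {L : ℝ} (hL : 64 ≤ L) : (Js L).Nonempty := by
  have hex : ∃ j : ℕ, L ≤ (2:ℝ) ^ (6 * j) := by
    obtain ⟨n, hn⟩ := pow_unbounded_of_one_lt L (by norm_num : (1:ℝ) < 2)
    exact ⟨n, hn.le.trans (pow_le_pow_right₀ (by norm_num) (by omega))⟩
  classical
  set j := Nat.find hex with hj
  have h1 : L ≤ (2:ℝ) ^ (6 * j) := Nat.find_spec hex
  have hj0 : j ≠ 0 := by
    intro h
    rw [h] at h1
    norm_num at h1
    linarith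
  have h2 : (2:ℝ) ^ (6 * (j - 1)) < L := by
    have := Nat.find_min hex (m := j - 1) (by omega)
    exact not_le.1 this
  have h3 : (2:ℝ) ^ (3 * j) ≤ L := by
    have e1 : (2:ℝ) ^ (6 * j) = 64 * 2 ^ (6 * (j - 1)) := by
      have : 6 * j = 6 + 6 * (j - 1) := by omega
      rw [this, pow_add]
      norm_num
    have e2 : ((2:ℝ) ^ (3 * j)) ^ 2 = 2 ^ (6 * j) := by
      rw [← pow_mul]
      congr 1
      ring
    refine (pow_le_pow_iff_left₀ (by positivity) (by linarith) (by norm_num : 2 ≠ 0)).1 ?_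
    rw [e2, e1]
    nlinarith
  refine ⟨j, ?_⟩
  unfold Js
  rw [Finset.mem_filter, Finset.mem_range, Nat.lt_succ_iff]
  refine ⟨?_, h1, h3⟩
  rw [Nat.le_floor_iff (by linarith)]
  refine le_trans ?_ h3
  have h4 : j < 2 ^ (3 * j) := lt_of_lt_of_le Nat.lt_two_pow_self (Nat.pow_le_pow_right (by norm_num) (by omega))
  exact_mod_cast h4.le

theorem card_pos {L : ℝ} (hL : 64 ≤ L) : (0:ℝ) < ((Js L).card : ℝ) := by
  exact_mod_cast Finset.card_pos.2 (Js_ne hL)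

theorem wJ_card {L : ℝ} (hL : 64 ≤ L) : wJ L * (Js L).card = 3 / 2 := by
  have := card_pos hL
  unfold wJ
  field_simp

theorem wJ_nonneg (L : ℝ) : 0 ≤ wJ L := by
  unfold wJ
  positivity

theorem mem_Js {L : ℝ} (hL : 1 ≤ L) {j : ℕ} (hj : j ∈ Js L) :
    L ^ (1 / 6 : ℝ) ≤ 2 ^ j ∧ (2:ℝ) ^ j ≤ L ^ (1 / 3 : ℝ) := by
  unfold Js at hj
  rw [Finset.mem_filter] at hj
  constructor
  · have h1 : L ^ (1 / 6 : ℝ) ≤ ((2:ℝ) ^ (6 * j)) ^ (1 / 6 : ℝ) :=
      Real.rpow_le_rpow (by linarith) hj.2.1 (by norm_num)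
    refine h1.trans (le_of_eq ?_)
    rw [mul_comm 6 j, pow_mul, ← Real.rpow_natCast ((2:ℝ) ^ j) 6, ← Real.rpow_mul (by positivity)]
    norm_num
  · have h1 : ((2:ℝ) ^ (3 * j)) ^ (1 / 3 : ℝ) ≤ L ^ (1 / 3 : ℝ) :=
      Real.rpow_le_rpow (by positivity) hj.2.2 (by norm_num)
    refine le_trans (le_of_eq ?_) h1
    rw [mul_comm 3 j, pow_mul, ← Real.rpow_natCast ((2:ℝ) ^ j) 3, ← Real.rpow_mul (by positivity)]
    norm_num

/-- F0: the kernel (`0 ≤ q(b) ≤ 8/b²`) -/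
theorem phi_far : ∃ C : ℝ, 1 ≤ C ∧ ∀ L x : ℝ, C ≤ L → x ≠ 0 → 0 ≤ phi L x ∧ phi L x ≤ C * (L ^ (1 / 3 : ℝ) / x) ^ 2 := by
  refine ⟨64, by norm_num, fun L x hL hx => ?_⟩
  have hc := card_pos hL
  have hx2 : 0 < x ^ 2 := by positivity
  constructor
  · exact mul_nonneg (wJ_nonneg L) (Finset.sum_nonneg fun j _ => Pool.Agent.Helper54.LG.qk_zero_nonneg _)
  · have h1 : ∀ j ∈ Js L, qk 0 (2 * Real.pi * x / 2 ^ j) ≤ 21 * (L ^ (1 / 3 : ℝ) / x) ^ 2 := by
      intro j hj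
      refine (qk_zero_le _).trans ?_
      have h2 := (mem_Js (by linarith) hj).2
      have h3 : 0 < (2:ℝ) ^ j := by positivity
      have h4 : ((2:ℝ) ^ j) ^ 2 ≤ (L ^ (1 / 3 : ℝ)) ^ 2 := pow_le_pow_left₀ h3.le h2 2
      rw [div_pow, div_pow, ← mul_div_assoc, div_le_div_iff₀ (by positivity) hx2, mul_pow, mul_pow]
      have hpi : 1 ≤ Real.pi ^ 2 := by nlinarith [Real.pi_gt_three]
      have hL2 : 0 < (L ^ (1 / 3 : ℝ)) ^ 2 := by
        have : 0 < L ^ (1 / 3 : ℝ) := Real.rpow_pos_of_pos (by linarith) _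
        positivity
      have h5 : x ^ 2 ≤ (L ^ (1 / 3 : ℝ)) ^ 2 * (1 + 2 ^ 2 * Real.pi ^ 2 * x ^ 2 / ((2:ℝ) ^ j) ^ 2) := by
        have h6 : x ^ 2 ≤ (L ^ (1 / 3 : ℝ)) ^ 2 * (x ^ 2 / ((2:ℝ) ^ j) ^ 2) := by
          rw [← mul_div_assoc, le_div_iff₀ (by positivity)]
          nlinarith
        have h7 : x ^ 2 / ((2:ℝ) ^ j) ^ 2 ≤ 1 + 2 ^ 2 * Real.pi ^ 2 * x ^ 2 / ((2:ℝ) ^ j) ^ 2 := by
          have h8 : x ^ 2 / ((2:ℝ) ^ j) ^ 2 ≤ 2 ^ 2 * Real.pi ^ 2 * x ^ 2 / ((2:ℝ) ^ j) ^ 2 := by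
            refine div_le_div_of_nonneg_right ?_ (by positivity)
            nlinarith
          linarith
        exact h6.trans (mul_le_mul_of_nonneg_left h7 hL2.le)
      nlinarith
    have h2 : ∑ j ∈ Js L, qk 0 (2 * Real.pi * x / 2 ^ j) ≤ (Js L).card * (21 * (L ^ (1 / 3 : ℝ) / x) ^ 2) := by
      refine (Finset.sum_le_sum h1).trans (le_of_eq ?_)
      rw [Finset.sum_const, nsmul_eq_mul]
    calc phi L x ≤ wJ L * ((Js L).card * (21 * (L ^ (1 / 3 : ℝ) / x) ^ 2)) :=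
          mul_le_mul_of_nonneg_left h2 (wJ_nonneg L)
      _ = (wJ L * (Js L).card) * 21 * (L ^ (1 / 3 : ℝ) / x) ^ 2 := by ring
      _ = 63 / 2 * (L ^ (1 / 3 : ℝ) / x) ^ 2 := by
          rw [wJ_card hL]
          ring
      _ ≤ 64 * (L ^ (1 / 3 : ℝ) / x) ^ 2 := by
          have := sq_nonneg (L ^ (1 / 3 : ℝ) / x)
          linarith

/-- W1: the kernel near `0` (`0 ≤ 2/3 - q(b) ≤ b²/30`) -/
theorem phi_near : ∃ C : ℝ, 1 ≤ C ∧ ∀ L x : ℝ, C ≤ L → |x| ≤ L ^ (1 / 16 : ℝ) →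
    0 ≤ 1 - phi L x ∧ 1 - phi L x ≤ C * L ^ (-(5 / 24) : ℝ) := by
  refine ⟨64, by norm_num, fun L x hL hx => ?_⟩
  have hL0 : 0 < L := by linarith
  have hc := card_pos hL
  have h1 : 1 - phi L x = wJ L * ∑ j ∈ Js L, (2 / 3 - qk 0 (2 * Real.pi * x / 2 ^ j)) := by
    rw [Finset.sum_sub_distrib, Finset.sum_const, nsmul_eq_mul, mul_sub, ← mul_assoc, wJ_card hL]
    unfold phi
    norm_num
  rw [h1]
  constructor
  · exact mul_nonneg (wJ_nonneg L) (Finset.sum_nonneg fun j _ => (qk_near _).1)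
  · have h2 : ∀ j ∈ Js L, 2 / 3 - qk 0 (2 * Real.pi * x / 2 ^ j) ≤ 40 * L ^ (-(5 / 24) : ℝ) := by
      intro j hj
      refine (qk_near _).2.trans ?_
      have h3 := (mem_Js (by linarith) hj).1
      have h4 : x ^ 2 ≤ L ^ (1 / 8 : ℝ) := by
        rw [← sq_abs]
        refine (pow_le_pow_left₀ (abs_nonneg _) hx 2).trans (le_of_eq ?_)
        rw [← Real.rpow_natCast, ← Real.rpow_mul hL0.le]
        norm_num
      have h5 : L ^ (1 / 3 : ℝ) ≤ ((2:ℝ) ^ j) ^ 2 := by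
        refine le_trans (le_of_eq ?_) (pow_le_pow_left₀ (by positivity) h3 2)
        rw [← Real.rpow_natCast, ← Real.rpow_mul hL0.le]
        norm_num
      have h6 : Real.pi ^ 2 ≤ 10 := by nlinarith [Real.pi_lt_d2, Real.pi_pos]
      rw [div_pow, mul_pow, mul_pow]
      have h7 : L ^ (-(5 / 24) : ℝ) = L ^ (1 / 8 : ℝ) / L ^ (1 / 3 : ℝ) := by
        rw [← Real.rpow_sub hL0]
        norm_num
      rw [h7, ← mul_div_assoc]
      have h8 : 0 < L ^ (1 / 3 : ℝ) := Real.rpow_pos_of_pos hL0 _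
      refine div_le_div₀ (by positivity) ?_ h8 h5
      nlinarith [sq_nonneg x, Real.pi_pos]
    have h3 : ∑ j ∈ Js L, (2 / 3 - qk 0 (2 * Real.pi * x / 2 ^ j)) ≤ (Js L).card * (40 * L ^ (-(5 / 24) : ℝ)) := by
      refine (Finset.sum_le_sum h2).trans (le_of_eq ?_)
      rw [Finset.sum_const, nsmul_eq_mul]
    calc wJ L * ∑ j ∈ Js L, (2 / 3 - qk 0 (2 * Real.pi * x / 2 ^ j)) ≤
          wJ L * ((Js L).card * (40 * L ^ (-(5 / 24) : ℝ))) := mul_le_mul_of_nonneg_left h3 (wJ_nonneg L)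
      _ = (wJ L * (Js L).card) * 40 * L ^ (-(5 / 24) : ℝ) := by ring
      _ = 60 * L ^ (-(5 / 24) : ℝ) := by
          rw [wJ_card hL]
          ring
      _ ≤ 64 * L ^ (-(5 / 24) : ℝ) := by
          have : 0 < L ^ (-(5 / 24) : ℝ) := Real.rpow_pos_of_pos hL0 _
          linarith

end Pool.Agent.Helper38.NR
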