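import Pool.Agent.Helper38.NR.Js
import Pool.Agent.Helper99.NR.G

/-!
# NR, block tot_thick: the linear statistic
-/

set_option autoImplicit false
open MeasureTheory Set Filter Topology
open Pool.Agent.Helper54.LG (SS MM)
open Pool.Agent.Helper93.UG (sp)
open Pool.Agent.Helper69.UG (XX NX)
open Pool.Agent.Helper24.NR

namespace Pool.Agent.Helper38.NR

/-- the main term, a little to the left too -/
theorem mm_main2 (hB : ∃ C T₀ : ℝ, 0 < C ∧ ∀ T M t : ℝ, T₀ ≤ T → 1 ≤ M → M ≤ Real.log T →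
      t ∈ Pool.Agent.Helper57.TX.JJ T → |MM (XX T M) t - M| ≤ C * (M / Real.log T)) :
    ∃ C T₀ : ℝ, 0 < C ∧ ∀ T M t : ℝ, T₀ ≤ T → 2 ≤ M → M ≤ Real.log T → t ∈ Icc (3 * T / 8) (4 * T) →
      |MM (XX T M) t - M| ≤ C * (M / Real.log T) := by
  obtain ⟨C, T₀, hC, h⟩ := hB
  refine ⟨C + 1, max (2 * T₀) 3, by positivity, fun T M t hT hM hM2 ht => ?_⟩
  have hT0 : 2 * T₀ ≤ T := (le_max_left _ _).trans hT
  have hT3 : 3 ≤ T := (le_max_right _ _).trans hT
  have hl : 0 < Real.log T := Real.log_pos (by linarith)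
  have hM0 : 0 < M := by linarith
  have hml : 0 ≤ M / Real.log T := by positivity
  by_cases h1 : T / 2 ≤ t
  · have hT' : T₀ ≤ T := by
      rcases le_or_gt T₀ 0 with h0 | h0
      · linarith
      · linarith
    have h2 := h T M t hT' (by linarith) hM2 ⟨h1, ht.2⟩
    refine h2.trans ?_
    nlinarith
  · rw [not_le] at h1
    set T' := 3 * T / 4 with hT'def
    have hT'0 : 0 < T' := by rw [hT'def]; linarith
    have hT'1 : T₀ ≤ T' := by
      rw [hT'def]
      rcases le_or_gt T₀ 0 with h0 | h0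
      · linarith
      · linarith
    have hlT : Real.log T' = Real.log T - Real.log (4 / 3) := by
      rw [← Real.log_div (by linarith) (by norm_num), hT'def]
      congr 1
      ring
    have h43a : 0 < Real.log (4 / 3) := Real.log_pos (by norm_num)
    have h43b : Real.log (4 / 3) ≤ 1 / 3 := by
      have := Real.log_le_sub_one_of_pos (by norm_num : (0:ℝ) < 4 / 3)
      linarith
    have hl2 : 2 ≤ Real.log T := hM.trans hM2
    have hl' : 0 < Real.log T' := by rw [hlT]; linarith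
    set M' := M * (Real.log T' / Real.log T) with hM'
    have hr : Real.log T' / Real.log T = 1 - Real.log (4 / 3) / Real.log T := by
      rw [hlT, sub_div, div_self hl.ne']
    have hq : Real.log (4 / 3) / Real.log T ≤ 1 / 6 := by
      rw [div_le_iff₀ hl]
      linarith
    have hq0 : 0 ≤ Real.log (4 / 3) / Real.log T := by positivity
    have hM'1 : 1 ≤ M' := by
      rw [hM', hr]
      nlinarith
    have hM'2 : M' ≤ Real.log T' := by
      rw [hM', ← mul_div_assoc, div_le_iff₀ hl]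
      nlinarith
    have hX : XX T' M' = XX T M := by
      unfold XX
      rw [hM']
      field_simp
    have h2 := h T' M' t hT'1 hM'1 hM'2 ⟨by rw [hT'def]; linarith [ht.1], by rw [hT'def]; linarith⟩
    rw [hX] at h2
    have h3 : M' / Real.log T' = M / Real.log T := by
      rw [hM']
      field_simp
    rw [h3] at h2
    have h4 : |M' - M| ≤ M / Real.log T := by
      rw [hM', hr]
      have e : M * (1 - Real.log (4 / 3) / Real.log T) - M = -(Real.log (4 / 3) * (M / Real.log T)) := by ring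
      rw [e, abs_neg, abs_of_nonneg (by positivity)]
      nlinarith
    calc |MM (XX T M) t - M| = |(MM (XX T M) t - M') + (M' - M)| := by ring_nf
      _ ≤ |MM (XX T M) t - M'| + |M' - M| := abs_add_le _ _
      _ ≤ C * (M / Real.log T) + M / Real.log T := add_le_add h2 h4
      _ = (C + 1) * (M / Real.log T) := by ring

/-- E: the linear statistic -/
theorem tot_thick_of
    (hA : ∃ C M₀ T₀ : ℝ, 0 < C ∧ 1 ≤ M₀ ∧ ∀ T M : ℝ, T₀ ≤ T → M₀ ≤ M → M ≤ Real.log T → ∃ E : Set ℝ,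
      volume E ≤ ENNReal.ofReal (C / M ^ (1 / 4 : ℝ) * T) ∧ ∀ t ∈ Icc (T / 2) (3 * T), ∀ u : ℝ, |u - t| ≤ sp T →
        C / M ^ (1 / 4 : ℝ) < |NX (XX T M) u - (MM (XX T M) u - SS (XX T M) u)| → t ∈ E)
    (hB : ∃ C T₀ : ℝ, 0 < C ∧ ∀ T M t : ℝ, T₀ ≤ T → 1 ≤ M → M ≤ Real.log T →
      t ∈ Pool.Agent.Helper57.TX.JJ T → |MM (XX T M) t - M| ≤ C * (M / Real.log T))
    (hD : ∃ C c T0 : ℝ, 0 < C ∧ 0 < c ∧ ∀ (T e : ℝ) (a J : ℕ), T0 ≤ T → 1 ≤ J → (J : ℝ) ≤ 2 ^ a → 2 ≤ a →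
      1 / 2 ≤ Real.log T / 2 ^ (a + J) → 0 < e → e ≤ 1 → ∃ B : Set ℝ,
      volume B ≤ ENNReal.ofReal ((C * Real.exp (-(c * e ^ 2 * J)) + C / (2 ^ a * e) +
        C * (2 ^ (a + J) / (Real.log T * e)) ^ 2) * T) ∧
      ∀ t' ∈ Icc (T / 2) (3 * T), t' ∉ B → ∀ t : ℝ, |t - t'| ≤ 2 * Real.pi / Real.log T →
        |∑ j ∈ Finset.range J, SS (Real.log T / 2 ^ (a + j)) t| ≤ e * J) :
    ∃ c C T₀ : ℝ, 0 < c ∧ c ≤ 1 / 100 ∧ 1 ≤ C ∧ ∀ T L e : ℝ, T₀ ≤ T → C ≤ L → L ≤ Real.log T → 0 < e → e ≤ 1 →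
      ∃ E : Set ℝ, volume E ≤ ENNReal.ofReal (C * L ^ (-(c * e ^ 2)) * T) ∧
      ∀ t ∈ Icc (T / 2) (3 * T), ∀ u : ℝ, |u - t| ≤ sp T → e < |Tot T L u - AL L| → t ∈ E := by
  classical
  obtain ⟨C1, M₀, T1, hC1, hM₀, h1⟩ := hA
  obtain ⟨C2, T2, hC2, h2⟩ := mm_main2 hB
  obtain ⟨C3, c3, T3, hC3, hc3, h3⟩ := hD
  obtain ⟨C4, hC4, h4⟩ := card_bd
  -- thresholds for `L`
  have ev1 : ∀ᶠ L : ℝ in atTop, Real.log L ≤ L ^ (1 / 6 : ℝ) := by
    have := (isLittleO_log_rpow_atTop (by norm_num : (0:ℝ) < 1 / 6)).bound (by norm_num : (0:ℝ) < 1)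
    filter_upwards [this, eventually_ge_atTop 1] with L h hL
    rw [Real.norm_eq_abs, Real.norm_eq_abs, one_mul, abs_of_nonneg (Real.log_nonneg hL),
      abs_of_nonneg (by positivity)] at h
    exact h
  have ev2 : ∀ᶠ L : ℝ in atTop, max M₀ 2 ≤ L ^ (1 / 6 : ℝ) :=
    (tendsto_rpow_atTop (by norm_num)).eventually_ge_atTop _
  have ev3 : ∀ᶠ L : ℝ in atTop, 3 * (C1 + C2) ≤ L ^ (19 / 600 : ℝ) :=
    (tendsto_rpow_atTop (by norm_num)).eventually_ge_atTop _
  obtain ⟨L1, hL1⟩ := eventually_atTop.mp (ev1.and (ev2.and ev3))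
  have ev4 : ∀ᶠ T : ℝ in atTop, 64 ≤ Real.log T := Real.tendsto_log_atTop.eventually_ge_atTop _
  obtain ⟨T4, hT4⟩ := eventually_atTop.mp ev4
  set c : ℝ := min (c3 / 96) (1 / 100) with hc
  have hc0 : 0 < c := lt_min (by positivity) (by norm_num)
  have hc1 : c ≤ c3 / 96 := min_le_left _ _
  have hc2 : c ≤ 1 / 100 := min_le_right _ _
  set CC : ℝ := max (max C4 L1) (max 65 (600 / 19 * C1 + 70 * C3 + 10)) with hCC
  have hCC1 : C4 ≤ CC := (le_max_left _ _).trans (le_max_left _ _)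
  have hCC2 : L1 ≤ CC := (le_max_right _ _).trans (le_max_left _ _)
  have hCC3 : 65 ≤ CC := (le_max_left _ _).trans (le_max_right _ _)
  have hCC4 : 600 / 19 * C1 + 70 * C3 + 10 ≤ CC := (le_max_right _ _).trans (le_max_right _ _)
  refine ⟨c, CC, max (max T1 T2) (max T3 (max T4 16)), hc0, hc2, by linarith, fun T L e hT hL hLT he he1 => ?_⟩
  have hTa : T1 ≤ T := (le_max_left _ _).trans ((le_max_left _ _).trans hT)
  have hTb : T2 ≤ T := (le_max_right _ _).trans ((le_max_left _ _).trans hT)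
  have hTc : T3 ≤ T := (le_max_left _ _).trans ((le_max_right _ _).trans hT)
  have hTd : T4 ≤ T := (le_max_left _ _).trans ((le_max_right _ _).trans ((le_max_right _ _).trans hT))
  have hTe : 16 ≤ T := (le_max_right _ _).trans ((le_max_right _ _).trans ((le_max_right _ _).trans hT))
  have hT0 : 0 < T := by linarith
  have hlT : 64 ≤ Real.log T := hT4 T hTd
  have hl : 0 < Real.log T := by linarith
  have hL65 : 65 ≤ L := hCC3.trans hL
  have hL0 : 0 < L := by linarith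
  have hL1' : 1 ≤ L := by linarith
  obtain ⟨hLa, hLb, hLc⟩ := hL1 L (hCC2.trans hL)
  have hLM : M₀ ≤ L ^ (1 / 6 : ℝ) := (le_max_left _ _).trans hLb
  have hL2 : 2 ≤ L ^ (1 / 6 : ℝ) := (le_max_right _ _).trans hLb
  have hcard := h4 L (hCC1.trans hL)
  have hce : c * e ^ 2 ≤ 1 / 100 := by nlinarith [sq_nonneg e]
  have hpw : L ^ (-(1 / 100) : ℝ) ≤ L ^ (-(c * e ^ 2)) :=
    Real.rpow_le_rpow_of_exponent_le hL1' (by linarith)
  have hpw0 : 0 < L ^ (-(c * e ^ 2)) := Real.rpow_pos_of_pos hL0 _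
  by_cases hbig : e < L ^ (-(1 / 100) : ℝ)
  · refine ⟨Icc (T / 2) (3 * T), ?_, fun t ht _ _ _ => ht⟩
    rw [Real.volume_Icc]
    refine ENNReal.ofReal_le_ofReal ?_
    have hlog : Real.log L ≤ 50 * L ^ (1 / 50 : ℝ) := by
      have := Real.log_le_rpow_div hL0.le (by norm_num : (0:ℝ) < 1 / 50)
      linarith
    have he2 : e ^ 2 ≤ L ^ (-(1 / 50) : ℝ) := by
      refine (pow_le_pow_left₀ he.le hbig.le 2).trans (le_of_eq ?_)
      rw [← Real.rpow_natCast, ← Real.rpow_mul hL0.le]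
      norm_num
    have hprod : e ^ 2 * Real.log L ≤ 50 := by
      have hl0 : 0 ≤ Real.log L := Real.log_nonneg hL1'
      calc e ^ 2 * Real.log L ≤ L ^ (-(1 / 50) : ℝ) * (50 * L ^ (1 / 50 : ℝ)) := by gcongr
        _ = 50 * (L ^ (-(1 / 50) : ℝ) * L ^ (1 / 50 : ℝ)) := by ring
        _ = 50 := by rw [← Real.rpow_add hL0]; norm_num
    have hlow : 1 / 2 ≤ L ^ (-(c * e ^ 2)) := by
      rw [Real.rpow_def_of_pos hL0]
      have h5 : -(1 / 2) ≤ Real.log L * -(c * e ^ 2) := by nlinarith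
      have h6 := Real.add_one_le_exp (Real.log L * -(c * e ^ 2))
      linarith
    have : 5 / 2 ≤ CC * L ^ (-(c * e ^ 2)) := by nlinarith
    nlinarith
  · rw [not_lt] at hbig
    -- the scales
    obtain ⟨a, hsum, ha1, hJ1, ha2⟩ := js_range (by linarith : 64 ≤ L)
    set J := (Js L).card with hJ
    have haJs : a ≥ 2 := by
      by_contra hlt
      have : a ≤ 1 := by omega
      have h5 : (2:ℝ) ^ (6 * a) ≤ 2 ^ 6 := pow_le_pow_right₀ (by norm_num) (by omega)
      norm_num at h5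
      linarith
    have h2a : L ^ (1 / 6 : ℝ) ≤ 2 ^ a := by
      have h5 : L ^ (1 / 6 : ℝ) ≤ ((2:ℝ) ^ (6 * a)) ^ (1 / 6 : ℝ) :=
        Real.rpow_le_rpow hL0.le ha1 (by norm_num)
      refine h5.trans (le_of_eq ?_)
      rw [mul_comm 6 a, pow_mul, ← Real.rpow_natCast ((2:ℝ) ^ a) 6, ← Real.rpow_mul (by positivity)]
      norm_num
    have h2b : (2:ℝ) ^ (a + J - 1) ≤ L ^ (1 / 3 : ℝ) := by
      have h5 : ((2:ℝ) ^ (3 * (a + J - 1))) ^ (1 / 3 : ℝ) ≤ L ^ (1 / 3 : ℝ) :=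
        Real.rpow_le_rpow (by positivity) ha2 (by norm_num)
      refine le_trans (le_of_eq ?_) h5
      rw [mul_comm 3 (a + J - 1), pow_mul, ← Real.rpow_natCast ((2:ℝ) ^ (a + J - 1)) 3, ← Real.rpow_mul (by positivity)]
      norm_num
    have h2c : (2:ℝ) ^ (a + J) ≤ 2 * L ^ (1 / 3 : ℝ) := by
      have e5 : a + J = (a + J - 1) + 1 := by omega
      rw [e5, pow_succ]
      linarith
    have hL3 : L ^ (1 / 3 : ℝ) ≤ L := by
      calc L ^ (1 / 3 : ℝ) ≤ L ^ (1 : ℝ) := Real.rpow_le_rpow_of_exponent_le hL1' (by norm_num)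
        _ = L := Real.rpow_one L
    set e' : ℝ := e / 4 with he'
    have he'0 : 0 < e' := by positivity
    have he'1 : e' ≤ 1 := by rw [he']; linarith
    obtain ⟨B, hBv, hB⟩ := h3 T e' a J hTc hJ1 (hcard.2.trans (hLa.trans h2a)) haJs (by
      rw [div_le_div_iff₀ (by norm_num) (by positivity)]
      nlinarith) he'0 he'1
    have hE : ∀ j : ℕ, ∃ E : Set ℝ, j ∈ Js L → volume E ≤ ENNReal.ofReal (C1 * L ^ (-(1 / 24) : ℝ) * T) ∧
        ∀ t ∈ Icc (T / 2) (3 * T), t ∉ E → ∀ u : ℝ, |u - t| ≤ sp T →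
          |NX (XX T (2 ^ j)) u - (MM (XX T (2 ^ j)) u - SS (XX T (2 ^ j)) u)| ≤ C1 * L ^ (-(1 / 24) : ℝ) := by
      intro j
      by_cases hj : j ∈ Js L
      · have hjm := mem_Js hL1' hj
        have hM1 : M₀ ≤ (2:ℝ) ^ j := hLM.trans hjm.1
        have hM2 : (2:ℝ) ^ j ≤ Real.log T := hjm.2.trans (hL3.trans hLT)
        obtain ⟨E, hEv, hE⟩ := h1 T (2 ^ j) hTa hM1 hM2
        have hb : C1 / ((2:ℝ) ^ j) ^ (1 / 4 : ℝ) ≤ C1 * L ^ (-(1 / 24) : ℝ) := by
          have h5 : L ^ (1 / 24 : ℝ) ≤ ((2:ℝ) ^ j) ^ (1 / 4 : ℝ) := by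
            refine le_trans (le_of_eq ?_) (Real.rpow_le_rpow (by positivity) hjm.1 (by norm_num))
            rw [← Real.rpow_mul hL0.le]
            norm_num
          have h6 : 0 < L ^ (1 / 24 : ℝ) := Real.rpow_pos_of_pos hL0 _
          rw [Real.rpow_neg hL0.le, ← div_eq_mul_inv]
          exact div_le_div_of_nonneg_left hC1.le h6 h5
        refine ⟨E, fun _ => ⟨hEv.trans (ENNReal.ofReal_le_ofReal (mul_le_mul_of_nonneg_right hb hT0.le)), ?_⟩⟩
        intro t ht htE u hu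
        refine le_trans ?_ hb
        by_contra hlt
        exact htE (hE t ht u hu (not_le.1 hlt))
      · exact ⟨∅, fun h => absurd h hj⟩
    choose E hE using hE
    refine ⟨(⋃ j ∈ Js L, E j) ∪ B, ?_, ?_⟩
    · -- the measure
      refine (measure_union_le _ _).trans ?_
      have hv1 : volume (⋃ j ∈ Js L, E j) ≤ ENNReal.ofReal (J * (C1 * L ^ (-(1 / 24) : ℝ) * T)) := by
        refine (measure_biUnion_finset_le _ _).trans ?_
        refine (Finset.sum_le_sum fun j hj => (hE j hj).1).trans (le_of_eq ?_)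
        rw [Finset.sum_const, ← ENNReal.ofReal_nsmul, nsmul_eq_mul]
      refine (add_le_add hv1 hBv).trans ?_
      rw [← ENNReal.ofReal_add (by positivity) (by positivity)]
      refine ENNReal.ofReal_le_ofReal ?_
      set P := L ^ (-(c * e ^ 2)) with hP
      have hb1 : (J:ℝ) * (C1 * L ^ (-(1 / 24) : ℝ) * T) ≤ 600 / 19 * C1 * P * T := by
        have h5 : (J:ℝ) ≤ 600 / 19 * L ^ (19 / 600 : ℝ) := by
          refine hcard.2.trans ?_
          have := Real.log_le_rpow_div hL0.le (by norm_num : (0:ℝ) < 19 / 600)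
          refine this.trans (le_of_eq ?_)
          ring
        have h6 : L ^ (19 / 600 : ℝ) * L ^ (-(1 / 24) : ℝ) = L ^ (-(1 / 100) : ℝ) := by
          rw [← Real.rpow_add hL0]
          norm_num
        have h7 : 0 < L ^ (-(1 / 24) : ℝ) := Real.rpow_pos_of_pos hL0 _
        calc (J:ℝ) * (C1 * L ^ (-(1 / 24) : ℝ) * T) ≤
              600 / 19 * L ^ (19 / 600 : ℝ) * (C1 * L ^ (-(1 / 24) : ℝ) * T) := by gcongr
          _ = 600 / 19 * C1 * (L ^ (19 / 600 : ℝ) * L ^ (-(1 / 24) : ℝ)) * T := by ring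
          _ ≤ 600 / 19 * C1 * P * T := by
              rw [h6]
              gcongr
      have hb2 : C3 * Real.exp (-(c3 * e' ^ 2 * J)) ≤ C3 * P := by
        refine mul_le_mul_of_nonneg_left ?_ hC3.le
        rw [hP, Real.rpow_def_of_pos hL0]
        refine Real.exp_le_exp.2 ?_
        have hl0 : 0 ≤ Real.log L := Real.log_nonneg hL1'
        have h5 : c * e ^ 2 * Real.log L ≤ c3 * e' ^ 2 * J := by
          have h6 : c * e ^ 2 * Real.log L ≤ c3 / 96 * e ^ 2 * Real.log L := by gcongr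
          have h7 : c3 * e' ^ 2 * (Real.log L / 6) ≤ c3 * e' ^ 2 * J :=
            mul_le_mul_of_nonneg_left hcard.1 (by positivity)
          have h8 : c3 / 96 * e ^ 2 * Real.log L = c3 * e' ^ 2 * (Real.log L / 6) := by
            rw [he']
            ring
          linarith
        linarith
      have hinv : 1 / e' ≤ 4 * L ^ (1 / 100 : ℝ) := by
        rw [div_le_iff₀ he'0, he']
        have h5 : 1 ≤ L ^ (1 / 100 : ℝ) * e := by
          have h6 : L ^ (1 / 100 : ℝ) * L ^ (-(1 / 100) : ℝ) = 1 := by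
            rw [← Real.rpow_add hL0]
            norm_num
          exact h6.symm.le.trans (mul_le_mul_of_nonneg_left hbig (by positivity))
        linarith
      have hb3 : C3 / (2 ^ a * e') ≤ 4 * C3 * P := by
        have h5 : 1 / (2:ℝ) ^ a ≤ L ^ (-(1 / 6) : ℝ) := by
          rw [Real.rpow_neg hL0.le, one_div]
          exact inv_anti₀ (Real.rpow_pos_of_pos hL0 _) h2a
        have h6 : L ^ (-(1 / 6) : ℝ) * L ^ (1 / 100 : ℝ) ≤ L ^ (-(1 / 100) : ℝ) := by
          rw [← Real.rpow_add hL0]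
          exact Real.rpow_le_rpow_of_exponent_le hL1' (by norm_num)
        calc C3 / (2 ^ a * e') = C3 * (1 / (2:ℝ) ^ a * (1 / e')) := by field_simp
          _ ≤ C3 * (L ^ (-(1 / 6) : ℝ) * (4 * L ^ (1 / 100 : ℝ))) := by gcongr
          _ = 4 * C3 * (L ^ (-(1 / 6) : ℝ) * L ^ (1 / 100 : ℝ)) := by ring
          _ ≤ 4 * C3 * P := mul_le_mul_of_nonneg_left (h6.trans hpw) (by positivity)
      have hb4 : C3 * (2 ^ (a + J) / (Real.log T * e')) ^ 2 ≤ 64 * C3 * P := by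
        have h5 : (2:ℝ) ^ (a + J) / (Real.log T * e') ≤ 8 * L ^ (-(1 / 200) : ℝ) := by
          have h6 : 1 / Real.log T ≤ L ^ (-1 : ℝ) := by
            rw [Real.rpow_neg_one, one_div]
            exact inv_anti₀ hL0 hLT
          calc (2:ℝ) ^ (a + J) / (Real.log T * e') = 2 ^ (a + J) * (1 / Real.log T * (1 / e')) := by field_simp
            _ ≤ (2 * L ^ (1 / 3 : ℝ)) * (L ^ (-1 : ℝ) * (4 * L ^ (1 / 100 : ℝ))) := by gcongr
            _ = 8 * (L ^ (1 / 3 : ℝ) * (L ^ (-1 : ℝ) * L ^ (1 / 100 : ℝ))) := by ring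
            _ ≤ 8 * L ^ (-(1 / 200) : ℝ) := by
                rw [← Real.rpow_add hL0, ← Real.rpow_add hL0]
                refine mul_le_mul_of_nonneg_left ?_ (by norm_num)
                exact Real.rpow_le_rpow_of_exponent_le hL1' (by norm_num)
        have h6 : ((2:ℝ) ^ (a + J) / (Real.log T * e')) ^ 2 ≤ 64 * L ^ (-(1 / 100) : ℝ) := by
          refine (pow_le_pow_left₀ (by positivity) h5 2).trans (le_of_eq ?_)
          rw [mul_pow, ← Real.rpow_natCast (L ^ (-(1 / 200) : ℝ)), ← Real.rpow_mul hL0.le]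
          norm_num
        calc C3 * (2 ^ (a + J) / (Real.log T * e')) ^ 2 ≤ C3 * (64 * L ^ (-(1 / 100) : ℝ)) :=
              mul_le_mul_of_nonneg_left h6 hC3.le
          _ = 64 * C3 * L ^ (-(1 / 100) : ℝ) := by ring
          _ ≤ 64 * C3 * P := mul_le_mul_of_nonneg_left hpw (by positivity)
      calc (J:ℝ) * (C1 * L ^ (-(1 / 24) : ℝ) * T) + (C3 * Real.exp (-(c3 * e' ^ 2 * J)) + C3 / (2 ^ a * e') +
            C3 * (2 ^ (a + J) / (Real.log T * e')) ^ 2) * T ≤
            600 / 19 * C1 * P * T + (C3 * P + 4 * C3 * P + 64 * C3 * P) * T := by gcongr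
        _ = (600 / 19 * C1 + 69 * C3) * P * T := by ring
        _ ≤ CC * P * T := by
            refine mul_le_mul_of_nonneg_right (mul_le_mul_of_nonneg_right ?_ hpw0.le) hT0.le
            linarith
    · -- pointwise
      intro t ht u hu hbad
      by_contra hnot
      rw [mem_union, not_or] at hnot
      have hnE : ∀ j ∈ Js L, t ∉ E j := by
        intro j hj hjE
        exact hnot.1 (mem_biUnion hj hjE)
      have hT1' : 1 < T := by linarith
      have hsp : sp T ≤ T / 8 := by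
        unfold sp
        rw [div_le_iff₀ hl]
        nlinarith [Real.pi_lt_d2, Real.pi_pos]
      have hu' : u ∈ Icc (3 * T / 8) (4 * T) := by
        rw [abs_le] at hu
        constructor
        · linarith [ht.1]
        · linarith [ht.2]
      have hw0 : 0 ≤ wJ L := wJ_nonneg L
      have hwc : wJ L * J = 3 / 2 := wJ_card (by linarith)
      -- the difference
      have hdiff : Tot T L u - AL L = wJ L * ∑ j ∈ Js L, (NX (XX T (2 ^ j)) u - (MM (XX T (2 ^ j)) u - SS (XX T (2 ^ j)) u)) +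
          wJ L * ∑ j ∈ Js L, (MM (XX T (2 ^ j)) u - 2 ^ j) - wJ L * ∑ j ∈ Js L, SS (XX T (2 ^ j)) u := by
        rw [Pool.Agent.Helper99.NR.tot_eq hT1']
        unfold AL
        rw [← mul_sub, ← mul_add, ← mul_sub, ← Finset.sum_sub_distrib, ← Finset.sum_add_distrib, ← Finset.sum_sub_distrib]
        congr 1
        refine Finset.sum_congr rfl fun j _ => ?_
        ring
      have hp1 : |wJ L * ∑ j ∈ Js L, (NX (XX T (2 ^ j)) u - (MM (XX T (2 ^ j)) u - SS (XX T (2 ^ j)) u))| ≤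
          3 / 2 * (C1 * L ^ (-(1 / 24) : ℝ)) := by
        rw [abs_mul, abs_of_nonneg hw0]
        refine (mul_le_mul_of_nonneg_left ((Finset.abs_sum_le_sum_abs _ _).trans
          (Finset.sum_le_sum fun j hj => (hE j hj).2 t ht (hnE j hj) u hu)) hw0).trans (le_of_eq ?_)
        rw [Finset.sum_const, nsmul_eq_mul, ← mul_assoc, hwc]
      have hp2 : |wJ L * ∑ j ∈ Js L, (MM (XX T (2 ^ j)) u - 2 ^ j)| ≤ 3 / 2 * (C2 * L ^ (-(1 / 24) : ℝ)) := by
        rw [abs_mul, abs_of_nonneg hw0]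
        have hj2 : ∀ j ∈ Js L, |MM (XX T (2 ^ j)) u - 2 ^ j| ≤ C2 * L ^ (-(1 / 24) : ℝ) := by
          intro j hj
          have hjm := mem_Js hL1' hj
          refine (h2 T (2 ^ j) u hTb (hL2.trans hjm.1) (hjm.2.trans (hL3.trans hLT)) hu').trans ?_
          refine mul_le_mul_of_nonneg_left ?_ hC2.le
          calc (2:ℝ) ^ j / Real.log T ≤ L ^ (1 / 3 : ℝ) / L := by gcongr; exact hjm.2
            _ = L ^ (-(2 / 3) : ℝ) := by
                rw [← Real.rpow_sub_one hL0.ne']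
                norm_num
            _ ≤ L ^ (-(1 / 24) : ℝ) := Real.rpow_le_rpow_of_exponent_le hL1' (by norm_num)
        refine (mul_le_mul_of_nonneg_left ((Finset.abs_sum_le_sum_abs _ _).trans
          (Finset.sum_le_sum hj2)) hw0).trans (le_of_eq ?_)
        rw [Finset.sum_const, nsmul_eq_mul, ← mul_assoc, hwc]
      have hp3 : |wJ L * ∑ j ∈ Js L, SS (XX T (2 ^ j)) u| ≤ 3 / 8 * e := by
        rw [abs_mul, abs_of_nonneg hw0, hsum]
        have h5 := hB t ht hnot.2 u (by unfold sp at hu; exact hu)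
        refine (mul_le_mul_of_nonneg_left h5 hw0).trans (le_of_eq ?_)
        rw [he']
        calc wJ L * (e / 4 * J) = (wJ L * J) * (e / 4) := by ring
          _ = 3 / 8 * e := by rw [hwc]; ring
      have hsmall : 3 / 2 * (C1 * L ^ (-(1 / 24) : ℝ)) + 3 / 2 * (C2 * L ^ (-(1 / 24) : ℝ)) ≤ e / 2 := by
        have h6 : L ^ (19 / 600 : ℝ) * L ^ (-(1 / 24) : ℝ) = L ^ (-(1 / 100) : ℝ) := by
          rw [← Real.rpow_add hL0]
          norm_num
        have h7 : 0 < L ^ (-(1 / 24) : ℝ) := Real.rpow_pos_of_pos hL0 _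
        have h8 : 3 * (C1 + C2) * L ^ (-(1 / 24) : ℝ) ≤ L ^ (-(1 / 100) : ℝ) := by
          rw [← h6]
          exact mul_le_mul_of_nonneg_right hLc h7.le
        linarith
      rw [hdiff] at hbad
      have habs := (abs_sub (wJ L * ∑ j ∈ Js L, (NX (XX T (2 ^ j)) u - (MM (XX T (2 ^ j)) u - SS (XX T (2 ^ j)) u)) +
          wJ L * ∑ j ∈ Js L, (MM (XX T (2 ^ j)) u - 2 ^ j)) (wJ L * ∑ j ∈ Js L, SS (XX T (2 ^ j)) u))
      have habs2 := abs_add_le (wJ L * ∑ j ∈ Js L, (NX (XX T (2 ^ j)) u - (MM (XX T (2 ^ j)) u - SS (XX T (2 ^ j)) u)))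
          (wJ L * ∑ j ∈ Js L, (MM (XX T (2 ^ j)) u - 2 ^ j))
      linarith

end Pool.Agent.Helper38.NR
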